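import Mathlib

set_option autoImplicit false

open Set Cardinal Order

namespace Pool.Agent.Results.MP_0b62d6_lc.WeakExtDistrib

universe u

/-- Boolean `m`-algebra: every family of at most `m` elements has a join and a meet. -/
def IsMAlg (m : Cardinal.{u}) (A : Type u) [BooleanAlgebra A] : Prop :=
  ∀ s : Set A, #s ≤ m → (∃ a, IsLUB s a) ∧ ∃ a, IsGLB s a

/-- A Boolean homomorphism preserving joins and meets of families of at most `m` elements. -/
def IsMHom (m : Cardinal.{u}) {A B : Type u} [BooleanAlgebra A] [BooleanAlgebra B]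
    (h : BoundedLatticeHom A B) : Prop :=
  ∀ s : Set A, #s ≤ m →
    (∀ a, IsLUB s a → IsLUB (h '' s) (h a)) ∧ ∀ a, IsGLB s a → IsGLB (h '' s) (h a)

/-- The subalgebra `A₀` `m`-generates `A`: the only subalgebra containing `A₀` and closed under
joins and meets (taken in `A`) of families of at most `m` elements is `A` itself. -/
def MGenerates (m : Cardinal.{u}) {A : Type u} [BooleanAlgebra A]
    (A₀ : BooleanSubalgebra A) : Prop :=
  ∀ L : BooleanSubalgebra A, A₀ ≤ L →
    (∀ s : Set A, s ⊆ L → #s ≤ m → ∀ a, IsLUB s a ∨ IsGLB s a → a ∈ L) → L = ⊤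

/-- Condition (a'): a family of at most `m` elements of `A₀` whose meet in `A` is `0` has image
with meet `0`. -/
def CondA (m : Cardinal.{u}) {A B : Type u} [BooleanAlgebra A] [BooleanAlgebra B]
    (A₀ : BooleanSubalgebra A) (f : BoundedLatticeHom A₀ B) : Prop :=
  ∀ s : Set A₀, #s ≤ m → IsGLB ((fun x : A₀ => (x : A)) '' s) ⊥ → IsGLB (f '' s) ⊥

/-- The weak `m`-extension property. -/
def WeakExt (m : Cardinal.{u}) (B : Type u) [BooleanAlgebra B] : Prop :=
  ∀ (A : Type u) [BooleanAlgebra A], IsMAlg m A →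
    ∀ A₀ : BooleanSubalgebra A, MGenerates m A₀ →
      ∀ f : BoundedLatticeHom A₀ B, CondA m A₀ f →
        ∃ h : BoundedLatticeHom A B, IsMHom m h ∧ ∀ x : A₀, h x = f x

/-- Weak `m`-distributivity. -/
def WeakDistrib (m : Cardinal.{u}) (B : Type u) [BooleanAlgebra B] : Prop :=
  ∀ (T S : Type u), #T ≤ m → #S ≤ m → ∀ a : T → S → B, (∀ t, IsLUB (range (a t)) ⊤) →
    IsLUB {c | ∃ Φ : T → Finset S, (∀ t, (Φ t).Nonempty) ∧
      IsGLB (range fun t => (Φ t).sup (a t)) c} ⊤

section
variable {B : Type u} [BooleanAlgebra B]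

/-- The ideal generated by a family. -/
def genIdeal {S : Type u} (a : S → B) : Order.Ideal B where
  carrier := {x | ∃ F : Finset S, x ≤ F.sup a}
  lower' := by
    rintro x y hxy ⟨F, hF⟩
    exact ⟨F, hxy.trans hF⟩
  nonempty' := ⟨⊥, ∅, bot_le⟩
  directed' := by
    classical
    rintro x ⟨F, hF⟩ y ⟨G, hG⟩
    refine ⟨(F ∪ G).sup a, ⟨F ∪ G, le_rfl⟩, ?_, ?_⟩
    · exact hF.trans (Finset.sup_mono Finset.subset_union_left)
    · exact hG.trans (Finset.sup_mono Finset.subset_union_right)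

lemma sep (I : Order.Ideal B) (l : B) (hl : l ∉ I) :
    ∃ J : Order.Ideal B, J.IsPrime ∧ I ≤ J ∧ l ∉ J := by
  have hd : Disjoint ((PFilter.principal l : PFilter B) : Set B) (I : Set B) := by
    rw [Set.disjoint_left]
    intro x hx hxI
    have : l ≤ x := PFilter.mem_principal.1 hx
    exact hl (I.lower this hxI)
  obtain ⟨J, hJ, hIJ, hdJ⟩ := DistribLattice.prime_ideal_of_disjoint_filter_ideal hd
  exact ⟨J, hJ, hIJ, fun h => Set.disjoint_left.1 hdJ (PFilter.mem_principal.2 le_rfl) h⟩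

/-- Stone representation on a set `P` of prime ideals. -/
def rep (P : Set (Order.Ideal B)) (hP : ∀ J ∈ P, J.IsPrime) : BoundedLatticeHom B (Set P) where
  toFun c := {J | c ∉ J.1}
  map_sup' a b := by
    ext J
    simp only [mem_setOf_eq, sup_eq_union, mem_union, Order.Ideal.sup_mem_iff]
    tauto
  map_inf' a b := by
    ext J
    simp only [mem_setOf_eq, inf_eq_inter, mem_inter_iff]
    constructor
    · intro h
      exact ⟨fun h' => h (J.1.lower inf_le_left h'), fun h' => h (J.1.lower inf_le_right h')⟩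
    · intro h h'
      rcases (hP J.1 J.2).mem_or_mem h' with h1 | h1
      · exact h.1 h1
      · exact h.2 h1
  map_top' := by
    ext J
    simp only [mem_setOf_eq, top_eq_univ, mem_univ, iff_true]
    haveI := hP J.1 J.2
    exact Order.Ideal.IsProper.top_notMem inferInstance
  map_bot' := by
    ext J
    simp [J.1.bot_mem]

/-- Closed under unions and intersections of at most `m` sets. -/
def MClosed (m : Cardinal.{u}) {X : Type u} (L : BooleanSubalgebra (Set X)) : Prop :=
  ∀ s : Set (Set X), s ⊆ L → #s ≤ m → ⋃₀ s ∈ L ∧ ⋂₀ s ∈ L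

/-- The `m`-field generated by a family of sets. -/
def mField (m : Cardinal.{u}) {X : Type u} (R : Set (Set X)) : BooleanSubalgebra (Set X) :=
  sInf {L | R ⊆ L ∧ MClosed m L}

lemma mField_closed (m : Cardinal.{u}) {X : Type u} (R : Set (Set X)) :
    MClosed m (mField m R) := by
  intro s hs hm
  constructor
  · refine BooleanSubalgebra.mem_sInf.2 fun L hL => (hL.2 s (fun x hx => ?_) hm).1
    exact BooleanSubalgebra.mem_sInf.1 (hs hx) L hL
  · refine BooleanSubalgebra.mem_sInf.2 fun L hL => (hL.2 s (fun x hx => ?_) hm).2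
    exact BooleanSubalgebra.mem_sInf.1 (hs hx) L hL

lemma sub_mField (m : Cardinal.{u}) {X : Type u} (R : Set (Set X)) : R ⊆ mField m R :=
  fun _ hx => BooleanSubalgebra.mem_sInf.2 fun _ hL => hL.1 hx

lemma lub_of {m : Cardinal.{u}} {X : Type u} {L : BooleanSubalgebra (Set X)} (hL : MClosed m L)
    (s : Set L) (hs : #s ≤ m) :
    ∃ a : L, (a : Set X) = ⋃₀ ((fun x : L => (x : Set X)) '' s) ∧ IsLUB s a := by
  have h := (hL ((fun x : L => (x : Set X)) '' s) (by rintro _ ⟨x, -, rfl⟩; exact x.2)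
    (Cardinal.mk_image_le.trans hs)).1
  refine ⟨⟨_, h⟩, rfl, ?_, ?_⟩
  · intro x hx
    exact (subset_sUnion_of_mem (mem_image_of_mem _ hx) : (x : Set X) ⊆ _)
  · intro y hy
    change Set.sUnion _ ⊆ (y : Set X)
    rintro p ⟨_, ⟨x, hx, rfl⟩, hp⟩
    exact (hy hx : (x : Set X) ⊆ y) hp

lemma glb_of {m : Cardinal.{u}} {X : Type u} {L : BooleanSubalgebra (Set X)} (hL : MClosed m L)
    (s : Set L) (hs : #s ≤ m) :
    ∃ a : L, (a : Set X) = ⋂₀ ((fun x : L => (x : Set X)) '' s) ∧ IsGLB s a := by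
  have h := (hL ((fun x : L => (x : Set X)) '' s) (by rintro _ ⟨x, -, rfl⟩; exact x.2)
    (Cardinal.mk_image_le.trans hs)).2
  refine ⟨⟨_, h⟩, rfl, ?_, ?_⟩
  · intro x hx
    exact (sInter_subset_of_mem (mem_image_of_mem _ hx) : _ ⊆ (x : Set X))
  · intro y hy
    change (y : Set X) ⊆ ⋂₀ _
    rintro p hp _ ⟨x, hx, rfl⟩
    exact (hy hx : (y : Set X) ⊆ x) hp

lemma generates (m : Cardinal.{u}) {X : Type u} (R : BooleanSubalgebra (Set X)) :
    MGenerates m (R.comap (mField m (R : Set (Set X))).subtype) := by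
  let M := mField m (R : Set (Set X))
  change MGenerates m (R.comap M.subtype)
  intro L hL hc
  have hcl : MClosed m M := mField_closed m _
  have key : M ≤ L.map M.subtype := by
    intro x hx
    refine BooleanSubalgebra.mem_sInf.1 hx _ ⟨?_, ?_⟩
    · intro r hr
      exact ⟨⟨r, sub_mField m _ hr⟩, hL hr, rfl⟩
    · intro s hs hm
      let s' : Set M := {x | (x : Set X) ∈ s}
      have him : (fun x : M => (x : Set X)) '' s' = s := by
        apply Subset.antisymm
        · rintro _ ⟨x, hx, rfl⟩; exact hx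
        · intro y hy
          obtain ⟨z, -, hz⟩ := hs hy
          refine ⟨z, ?_, hz⟩
          change (z : Set X) ∈ s
          have : (z : Set X) = y := hz
          rw [this]; exact hy
      have hm' : #s' ≤ m := by
        rw [← Cardinal.mk_image_eq (f := fun x : M => (x : Set X)) Subtype.val_injective, him]
        exact hm
      have hsL : s' ⊆ L := by
        intro x hx
        obtain ⟨z, hz, hzx⟩ := hs hx
        have : z = x := Subtype.ext hzx
        rw [← this]; exact hz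
      constructor
      · obtain ⟨a, ha, hl⟩ := lub_of hcl s' hm'
        exact ⟨a, hc s' hsL hm' a (Or.inl hl), by rw [← him, ← ha]; rfl⟩
      · obtain ⟨a, ha, hl⟩ := glb_of hcl s' hm'
        exact ⟨a, hc s' hsL hm' a (Or.inr hl), by rw [← him, ← ha]; rfl⟩
  rw [eq_top_iff]
  intro x _
  obtain ⟨z, hz, hzx⟩ := key x.2
  have : z = x := Subtype.ext hzx
  rw [← this]; exact hz

end

theorem result (m : Cardinal.{u}) (_hm : ℵ₀ ≤ m) (B : Type u) [BooleanAlgebra B]
    (hB : IsMAlg m B) (hext : WeakExt m B) : WeakDistrib m B := by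
  classical
  intro T S hT hS a ha
  refine ⟨fun _ _ => le_top, fun b hb => ?_⟩
  by_contra hne
  have hnt : ¬ (⊤ : B) ≤ ⊥ := fun h => hne (h.trans bot_le)
  let P : Set (Order.Ideal B) := {J | J.IsPrime ∧ (bᶜ ∈ J ∨ ∃ t, ∀ s, a t s ∈ J)}
  have hP : ∀ J ∈ P, J.IsPrime := fun J hJ => hJ.1
  let e := rep P hP
  have he : ∀ c (J : P), J ∈ e c ↔ c ∉ J.1 := fun _ _ => Iff.rfl
  have hker : ∀ l, e l = ∅ → l = ⊥ := by
    intro l hl
    have hall : ∀ J ∈ P, l ∈ J := by
      intro J hJ
      by_contra h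
      have : (⟨J, hJ⟩ : P) ∈ e l := (he _ _).2 h
      rw [hl] at this
      exact this
    have h1 : l ≤ bᶜ := by
      by_contra h
      obtain ⟨J, hJ, hIJ, hlJ⟩ := sep (Order.Ideal.principal bᶜ) l
        (fun h' => h (Order.Ideal.mem_principal.1 h'))
      exact hlJ (hall J ⟨hJ, Or.inl (hIJ (Order.Ideal.mem_principal.2 le_rfl))⟩)
    have h2 : ∀ t, ∃ F : Finset S, F.Nonempty ∧ l ≤ F.sup (a t) := by
      intro t
      have hS0 : Nonempty S := by
        by_contra h
        rw [not_nonempty_iff] at h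
        apply hnt
        apply (ha t).2
        rintro _ ⟨s, -⟩
        exact h.elim s
      obtain ⟨s0⟩ := hS0
      have : l ∈ genIdeal (a t) := by
        by_contra h
        obtain ⟨J, hJ, hIJ, hlJ⟩ := sep _ l h
        refine hlJ (hall J ⟨hJ, Or.inr ⟨t, fun s => hIJ ?_⟩⟩)
        exact ⟨{s}, by simp⟩
      obtain ⟨F, hF⟩ := this
      exact ⟨insert s0 F, Finset.insert_nonempty _ _,
        hF.trans (Finset.sup_mono (Finset.subset_insert _ _))⟩
    choose Φ hΦ hlΦ using h2
    obtain ⟨c, hc⟩ := (hB (range fun t => (Φ t).sup (a t)) (Cardinal.mk_range_le.trans hT)).2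
    have h3 : l ≤ c := hc.2 (by rintro _ ⟨t, rfl⟩; exact hlΦ t)
    have h4 : c ≤ b := hb ⟨Φ, hΦ, hc⟩
    have h5 : l ≤ b ⊓ bᶜ := le_inf (h3.trans h4) h1
    simpa using h5
  have hle : ∀ x y, e x ≤ e y → x ≤ y := by
    intro x y h
    rw [← sdiff_eq_bot_iff]
    apply hker
    rw [map_sdiff]
    exact Set.sdiff_eq_empty.2 h
  have hinj : Function.Injective e := fun x y h => le_antisymm (hle _ _ h.le) (hle _ _ h.ge)
  let R : BooleanSubalgebra (Set P) := (⊤ : BooleanSubalgebra B).map e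
  let M := mField m (R : Set (Set P))
  have hcl : MClosed m M := mField_closed m _
  let A₀ : BooleanSubalgebra M := R.comap M.subtype
  have hex : ∀ x : A₀, ∃ c, e c = ((x : M) : Set P) := by
    intro x
    obtain ⟨c, -, hc⟩ := x.2
    exact ⟨c, hc⟩
  choose g hg using hex
  let f : BoundedLatticeHom A₀ B :=
    { toFun := g
      map_sup' := fun x y => hinj (by rw [map_sup, hg, hg, hg]; rfl)
      map_inf' := fun x y => hinj (by rw [map_inf, hg, hg, hg]; rfl)
      map_top' := hinj (by rw [map_top, hg]; rfl)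
      map_bot' := hinj (by rw [map_bot, hg]; rfl) }
  have hMalg : IsMAlg m M := by
    intro s hs
    obtain ⟨x, -, hx⟩ := lub_of hcl s hs
    obtain ⟨y, -, hy⟩ := glb_of hcl s hs
    exact ⟨⟨x, hx⟩, ⟨y, hy⟩⟩
  have memM : ∀ c, e c ∈ M := fun c => sub_mField m _ ⟨c, trivial, rfl⟩
  have hA : CondA m A₀ f := by
    intro s hs hglb
    refine ⟨fun _ _ => bot_le, fun l hl => ?_⟩
    have : (⟨e l, memM l⟩ : M) ≤ ⊥ := by
      apply hglb.2
      rintro _ ⟨x, hx, rfl⟩
      change e l ≤ ((x : M) : Set P)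
      rw [← hg]
      exact OrderHomClass.mono e (hl ⟨x, hx, rfl⟩)
    have h0 : e l = ∅ := subset_empty_iff.1 this
    exact (hker l h0).le
  obtain ⟨h, hh, hf⟩ := hext M hMalg A₀ (generates m R) f hA
  let E : B → M := fun c => ⟨e c, memM c⟩
  have hE : ∀ c, h (E c) = c := by
    intro c
    have := hf ⟨E c, ⟨c, trivial, rfl⟩⟩
    rw [this]
    exact hinj (hg _)
  have hN : ∀ t, ∃ N : M, h N = ⊥ ∧ ∀ J : P, (∀ s, a t s ∈ J.1) → J ∈ (N : Set P) := by
    intro t
    have hc : #(range fun s => E (a t s)ᶜ) ≤ m := Cardinal.mk_range_le.trans hS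
    obtain ⟨N, hN, hg'⟩ := glb_of hcl _ hc
    refine ⟨N, ?_, ?_⟩
    · have h1 := (hh _ hc).2 N hg'
      have h2 : ⊤ ≤ (h N)ᶜ := by
        apply (ha t).2
        rintro _ ⟨s, rfl⟩
        have : h N ≤ h (E (a t s)ᶜ) := h1.1 ⟨_, ⟨s, rfl⟩, rfl⟩
        rw [hE] at this
        exact le_compl_comm.1 this
      simpa using h2
    · intro J hJ
      rw [hN]
      rintro _ ⟨_, ⟨s, rfl⟩, rfl⟩
      change (a t s)ᶜ ∉ J.1
      intro h'
      haveI := J.2.1
      have := J.1.sup_mem (hJ s) h'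
      rw [sup_compl_eq_top] at this
      exact Order.Ideal.IsProper.top_notMem inferInstance this
  choose N hN0 hNJ using hN
  have hc : #(range N) ≤ m := Cardinal.mk_range_le.trans hT
  obtain ⟨U, hU, hl⟩ := lub_of hcl _ hc
  have h1 := (hh _ hc).1 U hl
  have h2 : h U ≤ ⊥ := by
    apply h1.2
    rintro _ ⟨_, ⟨t, rfl⟩, rfl⟩
    exact (hN0 t).le
  have h3 : E bᶜ ≤ U := by
    change e bᶜ ⊆ (U : Set P)
    intro J hJ
    rw [hU]
    rcases J.2.2 with h' | ⟨t, ht⟩
    · exact absurd h' hJ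
    · exact ⟨_, ⟨_, ⟨t, rfl⟩, rfl⟩, hNJ t J ht⟩
  have h4 : bᶜ ≤ ⊥ := by
    rw [← hE bᶜ]
    exact (OrderHomClass.mono h h3).trans h2
  apply hne
  simpa using h4

end Pool.Agent.Results.MP_0b62d6_lc.WeakExtDistrib
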